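import Pool.Agent.Helper66.LV.Defs

/-!
# MP_a499ba_nt, large values of the imaginary twists: partial summation
-/

set_option autoImplicit false

namespace Pool.Agent.Helper24.LV

open MeasureTheory Filter Pool.Agent.IT Pool.Agent.Helper66.LV

lemma sw_succ (a : ℕ → ℂ) (t : ℝ) (n : ℕ) : Sw a t ((n + 1 : ℕ) : ℝ) = Sw a t (n : ℝ) + a (n + 1) * nit t (n + 1) := by
  unfold Sw
  rw [Nat.floor_natCast, Nat.floor_natCast, Finset.sum_Icc_succ_top (by omega)]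

lemma root_step {n : ℕ} (hn : 1 ≤ n) : Real.sqrt n * ((n : ℝ) ^ (-(1 / 2) : ℝ) - ((n + 1 : ℕ) : ℝ) ^ (-(1 / 2) : ℝ)) ≤
    Real.log ((n + 1 : ℕ) : ℝ) - Real.log n := by
  have hn0 : (0 : ℝ) < n := by exact_mod_cast hn
  have hn1 : (0 : ℝ) < ((n + 1 : ℕ) : ℝ) := by positivity
  have h1 : ∀ x : ℝ, 0 < x → x ^ (-(1 / 2) : ℝ) = (Real.sqrt x)⁻¹ := by
    intro x hx
    rw [Real.rpow_neg hx.le, ← Real.sqrt_eq_rpow]
  rw [h1 _ hn0, h1 _ hn1, mul_sub, mul_inv_cancel₀ (by positivity), ← div_eq_mul_inv, ← Real.sqrt_div' _ hn1.le]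
  -- `1 - √(n/(n+1)) ≤ 1 - n/(n+1) ≤ -log(n/(n+1))`
  have h2 : (n : ℝ) / ((n + 1 : ℕ) : ℝ) ≤ Real.sqrt ((n : ℝ) / ((n + 1 : ℕ) : ℝ)) := by
    apply Real.le_sqrt_of_sq_le
    have h3 : (n : ℝ) / ((n + 1 : ℕ) : ℝ) ≤ 1 := by
      rw [div_le_one hn1]
      push_cast
      linarith
    have h4 : 0 ≤ (n : ℝ) / ((n + 1 : ℕ) : ℝ) := by positivity
    nlinarith
  have h5 := Real.log_le_sub_one_of_pos (show 0 < (n : ℝ) / ((n + 1 : ℕ) : ℝ) by positivity)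
  rw [Real.log_div hn0.ne' hn1.ne'] at h5
  linarith

lemma dn_aux {a : ℕ → ℂ} {t B : ℝ} (hB : 0 ≤ B) : ∀ N : ℕ, 1 ≤ N → (∀ n : ℕ, 1 ≤ n → n ≤ N → ‖Sw a t n‖ ≤ B * Real.sqrt n) →
    ‖Dn a N t - Sw a t N * (((N : ℝ) ^ (-(1 / 2) : ℝ) : ℝ) : ℂ)‖ ≤ B * Real.log N := by
  intro N hN
  induction N, hN using Nat.le_induction with
  | base =>
    intro _
    have h1 : Dn a 1 t - Sw a t (1 : ℕ) * ((((1 : ℕ) : ℝ) ^ (-(1 / 2) : ℝ) : ℝ) : ℂ) = 0 := by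
      unfold Dn Sw
      rw [Nat.floor_natCast, Finset.Icc_self, Finset.sum_singleton, Finset.sum_singleton]
      ring
    rw [h1]
    simp
  | succ N hN ih =>
    intro h
    have ih' := ih fun n h1 h2 => h n h1 (by omega)
    have hs := h N hN (by omega)
    have e1 : Dn a (N + 1) t - Sw a t ((N + 1 : ℕ) : ℝ) * ((((N + 1 : ℕ) : ℝ) ^ (-(1 / 2) : ℝ) : ℝ) : ℂ) =
        (Dn a N t - Sw a t N * (((N : ℝ) ^ (-(1 / 2) : ℝ) : ℝ) : ℂ)) +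
          Sw a t N * ((((N : ℝ) ^ (-(1 / 2) : ℝ) - ((N + 1 : ℕ) : ℝ) ^ (-(1 / 2) : ℝ) : ℝ)) : ℂ) := by
      rw [sw_succ]
      unfold Dn
      rw [Finset.sum_Icc_succ_top (by omega)]
      push_cast
      ring
    rw [e1]
    have hN0 : (0 : ℝ) < N := by exact_mod_cast hN
    have hpos : 0 ≤ (N : ℝ) ^ (-(1 / 2) : ℝ) - ((N + 1 : ℕ) : ℝ) ^ (-(1 / 2) : ℝ) := by
      rw [sub_nonneg]
      apply Real.rpow_le_rpow_of_nonpos hN0 _ (by norm_num)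
      push_cast
      linarith
    refine (norm_add_le _ _).trans ?_
    rw [norm_mul, Complex.norm_real, Real.norm_eq_abs, abs_of_nonneg hpos]
    have h2 : ‖Sw a t N‖ * ((N : ℝ) ^ (-(1 / 2) : ℝ) - ((N + 1 : ℕ) : ℝ) ^ (-(1 / 2) : ℝ)) ≤
        B * (Real.log ((N + 1 : ℕ) : ℝ) - Real.log N) := by
      calc _ ≤ B * Real.sqrt N * ((N : ℝ) ^ (-(1 / 2) : ℝ) - ((N + 1 : ℕ) : ℝ) ^ (-(1 / 2) : ℝ)) :=
            mul_le_mul_of_nonneg_right hs hpos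
        _ = B * (Real.sqrt N * ((N : ℝ) ^ (-(1 / 2) : ℝ) - ((N + 1 : ℕ) : ℝ) ^ (-(1 / 2) : ℝ))) := by ring
        _ ≤ _ := mul_le_mul_of_nonneg_left (root_step hN) hB
    linarith

/-- partial summation -/
theorem dn_le {a : ℕ → ℂ} {t B : ℝ} {N : ℕ} (hN : 1 ≤ N) (hB : 0 ≤ B)
    (h : ∀ n : ℕ, 1 ≤ n → n ≤ N → ‖Sw a t n‖ ≤ B * Real.sqrt n) : ‖Dn a N t‖ ≤ B * (2 + Real.log N) := by
  have h1 := dn_aux hB N hN h
  have h2 := h N hN le_rfl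
  have hN0 : (0 : ℝ) < N := by exact_mod_cast hN
  have h3 : ‖Sw a t N * (((N : ℝ) ^ (-(1 / 2) : ℝ) : ℝ) : ℂ)‖ ≤ B := by
    rw [norm_mul, Complex.norm_real, Real.norm_eq_abs, abs_of_nonneg (by positivity)]
    calc _ ≤ B * Real.sqrt N * (N : ℝ) ^ (-(1 / 2) : ℝ) := mul_le_mul_of_nonneg_right h2 (by positivity)
      _ = B := by
        rw [Real.rpow_neg hN0.le, ← Real.sqrt_eq_rpow, mul_assoc, mul_inv_cancel₀ (by positivity), mul_one]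
  have h4 : ‖Dn a N t‖ ≤ ‖Dn a N t - Sw a t N * (((N : ℝ) ^ (-(1 / 2) : ℝ) : ℝ) : ℂ)‖ +
      ‖Sw a t N * (((N : ℝ) ^ (-(1 / 2) : ℝ) : ℝ) : ℂ)‖ := by
    have := norm_add_le (Dn a N t - Sw a t N * (((N : ℝ) ^ (-(1 / 2) : ℝ) : ℝ) : ℂ))
      (Sw a t N * (((N : ℝ) ^ (-(1 / 2) : ℝ) : ℝ) : ℂ))
    rwa [sub_add_cancel] at this
  linarith

end Pool.Agent.Helper24.LV
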