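import Pool.Agent.Helper66.LV.Defs

/-!
# MP_a499ba_nt, large values of the imaginary twists: the diagonal
-/

set_option autoImplicit false

namespace Pool.Agent.Helper24.LV

open MeasureTheory Filter Pool.Agent.IT Pool.Agent.Helper66.LV

lemma lac_ne {n : ℕ} (hn : n ≠ 0) : lac n = (-1 : ℂ) ^ ArithmeticFunction.cardFactors n := by
  unfold lac
  rw [if_neg hn]

lemma lac_three {d n : ℕ} (hd : d ≠ 0) (hn : n ≠ 0) (r : ℂ) :
    lac d * (lac n * r) * (starRingEnd ℂ) (lac (d * n)) = r := by
  rw [lac_ne hd, lac_ne hn, lac_ne (mul_ne_zero hd hn), ArithmeticFunction.cardFactors_mul hd hn, map_pow, map_neg, map_one,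
    pow_add]
  have h1 : ∀ k : ℕ, ((-1 : ℂ) ^ k) * ((-1 : ℂ) ^ k) = 1 := by
    intro k
    rw [← mul_pow]
    norm_num
  calc _ = ((-1 : ℂ) ^ ArithmeticFunction.cardFactors d * (-1 : ℂ) ^ ArithmeticFunction.cardFactors d) *
      ((-1 : ℂ) ^ ArithmeticFunction.cardFactors n * (-1 : ℂ) ^ ArithmeticFunction.cardFactors n) * r := by ring
    _ = r := by rw [h1, h1]; ring

/-- the multiplicative function of the diagonal -/
noncomputable def ff : ArithmeticFunction ℝ := ⟨fun n => (n : ℝ) ^ (-(1 / 2) : ℝ) / (n.divisors.card : ℝ), by simp⟩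

lemma ff_apply (n : ℕ) : ff n = (n : ℝ) ^ (-(1 / 2) : ℝ) / (n.divisors.card : ℝ) := rfl

lemma ff_mul : ff.IsMultiplicative := by
  refine ⟨by simp [ff_apply], fun {m n} h => ?_⟩
  rw [ff_apply, ff_apply, ff_apply, Nat.Coprime.card_divisors_mul h]
  push_cast
  rw [Real.mul_rpow (Nat.cast_nonneg m) (Nat.cast_nonneg n)]
  ring

lemma prim_sq (y : ℕ) : Squarefree (primorial y) := by
  unfold primorial
  refine Finset.squarefree_prod_of_pairwise_isCoprime ?_ ?_
  · intro p hp q hq hpq
    rw [Finset.mem_coe, Finset.mem_filter] at hp hq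
    exact Nat.coprime_iff_isRelPrime.mp ((Nat.coprime_primes hp.2 hq.2).mpr hpq)
  · intro p hp
    rw [Finset.mem_filter] at hp
    exact hp.2.squarefree

/-- the diagonal -/
theorem diag {y N : ℕ} (hN : primorial y ≤ N) :
    ∑ x ∈ (primorial y).divisors ×ˢ Finset.Icc 1 N, ∑ e ∈ (primorial y).divisors,
      (if x.1 * x.2 = e then lac x.1 * (lac x.2 * (((x.2 : ℝ) ^ (-(1 / 2) : ℝ) : ℝ) : ℂ)) * (starRingEnd ℂ) (lac e) else 0) =
      ((Zy y * Py y : ℝ) : ℂ) := by
  classical
  have hP0 : primorial y ≠ 0 := (primorial_pos y).ne'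
  have hsq := prim_sq y
  -- the inner sum
  have h1 : ∀ x ∈ (primorial y).divisors ×ˢ Finset.Icc 1 N, ∑ e ∈ (primorial y).divisors,
      (if x.1 * x.2 = e then lac x.1 * (lac x.2 * (((x.2 : ℝ) ^ (-(1 / 2) : ℝ) : ℝ) : ℂ)) * (starRingEnd ℂ) (lac e) else 0) =
      (if x.1 * x.2 ∣ primorial y then (((x.2 : ℝ) ^ (-(1 / 2) : ℝ) : ℝ) : ℂ) else 0) := by
    intro x hx
    rw [Finset.mem_product, Nat.mem_divisors, Finset.mem_Icc] at hx
    have hd : x.1 ≠ 0 := fun h => hP0 (by
      have := hx.1.1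
      rw [h] at this
      exact Nat.eq_zero_of_zero_dvd this)
    have hn : x.2 ≠ 0 := by omega
    rw [Finset.sum_ite_eq (primorial y).divisors (x.1 * x.2)
      (fun e => lac x.1 * (lac x.2 * (((x.2 : ℝ) ^ (-(1 / 2) : ℝ) : ℝ) : ℂ)) * (starRingEnd ℂ) (lac e))]
    simp only [Nat.mem_divisors, hP0, ne_eq, not_false_eq_true, and_true, lac_three hd hn]
  rw [Finset.sum_congr rfl h1, Finset.sum_product_right]
  -- the sum over `d`
  have h2 : ∀ n ∈ Finset.Icc 1 N, ∑ d ∈ (primorial y).divisors,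
      (if d * n ∣ primorial y then (((n : ℝ) ^ (-(1 / 2) : ℝ) : ℝ) : ℂ) else 0) =
      if n ∣ primorial y then ((Zy y * ff n : ℝ) : ℂ) else 0 := by
    intro n hn
    rw [Finset.mem_Icc] at hn
    by_cases hnP : n ∣ primorial y
    · rw [if_pos hnP, ← Finset.sum_filter, Finset.sum_const]
      have e1 : (primorial y).divisors.filter (fun d => d * n ∣ primorial y) = (primorial y / n).divisors := by
        ext d
        rw [Finset.mem_filter, Nat.mem_divisors, Nat.mem_divisors]
        have hn0 : 0 < n := by omega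
        constructor
        · rintro ⟨_, h⟩
          exact ⟨(Nat.dvd_div_iff_mul_dvd hnP).mpr (by rwa [mul_comm]), (Nat.div_pos (Nat.le_of_dvd (primorial_pos y) hnP) hn0).ne'⟩
        · rintro ⟨h, _⟩
          have h3 := (Nat.dvd_div_iff_mul_dvd hnP).mp h
          rw [mul_comm] at h3
          exact ⟨⟨(Dvd.intro _ rfl).trans h3, hP0⟩, h3⟩
      rw [e1]
      have e2 : (primorial y).divisors.card = (primorial y / n).divisors.card * n.divisors.card := by
        have h3 : primorial y / n * n = primorial y := Nat.div_mul_cancel hnP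
        have h4 : Nat.Coprime (primorial y / n) n := by
          rw [← h3] at hsq
          exact Nat.coprime_of_squarefree_mul hsq
        rw [← Nat.Coprime.card_divisors_mul h4, h3]
      have hc : (n.divisors.card : ℝ) ≠ 0 := by
        have : 0 < n.divisors.card := Finset.card_pos.mpr ⟨1, by rw [Nat.mem_divisors]; exact ⟨one_dvd _, by omega⟩⟩
        positivity
      have hc' : (n.divisors.card : ℂ) ≠ 0 := by exact_mod_cast hc
      rw [nsmul_eq_mul, ff_apply]
      unfold Zy
      rw [e2]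
      push_cast
      field_simp
    · rw [if_neg hnP]
      refine Finset.sum_eq_zero fun d _ => ?_
      rw [if_neg]
      exact fun h => hnP ((Dvd.intro_left _ rfl).trans h)
  rw [Finset.sum_congr rfl h2, ← Finset.sum_filter]
  have h3 : (Finset.Icc 1 N).filter (fun n => n ∣ primorial y) = (primorial y).divisors := by
    ext n
    rw [Finset.mem_filter, Finset.mem_Icc, Nat.mem_divisors]
    constructor
    · rintro ⟨_, h⟩
      exact ⟨h, hP0⟩
    · rintro ⟨h, _⟩
      exact ⟨⟨Nat.pos_of_dvd_of_pos h (primorial_pos y), (Nat.le_of_dvd (primorial_pos y) h).trans hN⟩, h⟩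
  rw [h3, ← Complex.ofReal_sum, ← Finset.mul_sum,
    ← ArithmeticFunction.IsMultiplicative.prodPrimeFactors_one_add_of_squarefree ff_mul hsq]
  congr 2
  unfold Py
  refine Finset.prod_congr rfl fun p hp => ?_
  have hpp := Nat.prime_of_mem_primeFactors hp
  rw [ff_apply, hpp.divisors, Finset.card_pair (by exact hpp.one_lt.ne)]
  norm_num

end Pool.Agent.Helper24.LV
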