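import Pool.Agent.Helper66.LV.Defs
import Pool.Agent.Helper56.IT.K1

/-!
# MP_a499ba_nt, large values of the imaginary twists: from the Liouville function to the Moebius function
-/

set_option autoImplicit false

namespace Pool.Agent.Helper24.LV

open MeasureTheory Filter Pool.Agent.IT Pool.Agent.Helper66.LV

lemma root_unique {a b c d : ℕ} (ha : Squarefree a) (hc : Squarefree c) (hb : b ≠ 0) (hd : d ≠ 0)
    (h : b ^ 2 * a = d ^ 2 * c) : b = d := by
  refine Nat.eq_of_factorization_eq hb hd fun p => ?_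
  have h1 := DFunLike.congr_fun (congrArg Nat.factorization h) p
  rw [Nat.factorization_mul (by positivity) ha.ne_zero, Nat.factorization_mul (by positivity) hc.ne_zero,
    Nat.factorization_pow, Nat.factorization_pow] at h1
  simp only [Finsupp.coe_add, Finsupp.coe_smul, Pi.add_apply, Pi.smul_apply, smul_eq_mul] at h1
  have h2 := ha.natFactorization_le_one p
  have h3 := hc.natFactorization_le_one p
  omega

lemma lac_sum {n k : ℕ} (hk : 1 ≤ k) (hkn : k ≤ n) :
    lac k = ∑ d ∈ Finset.Icc 1 n, if d ^ 2 ∣ k then muc (k / d ^ 2) else 0 := by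
  classical
  obtain ⟨a, b, ha0, hb0, hab, hsq⟩ := Nat.sq_mul_squarefree_of_pos (n := k) (by omega)
  have hbn : b ∈ Finset.Icc 1 n := by
    rw [Finset.mem_Icc]
    refine ⟨hb0, ?_⟩
    have : b ≤ b ^ 2 * a := by nlinarith [Nat.mul_le_mul (Nat.mul_le_mul (le_refl b) hb0) ha0]
    omega
  rw [Finset.sum_eq_single_of_mem b hbn]
  · have hdvd : b ^ 2 ∣ k := Dvd.intro _ hab
    rw [if_pos hdvd, ← hab, Nat.mul_div_cancel_left _ (by positivity)]
    unfold lac muc
    rw [if_neg (by positivity), ArithmeticFunction.cardFactors_mul (by positivity) ha0.ne',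
      ArithmeticFunction.cardFactors_pow, ArithmeticFunction.moebius_apply_of_squarefree hsq, pow_add, pow_mul]
    norm_num
  · intro d hd hdb
    rw [Finset.mem_Icc] at hd
    split_ifs with h
    · obtain ⟨c, hc⟩ := h
      have hd0 : 0 < d ^ 2 := pow_pos (by omega) 2
      rw [hc, Nat.mul_div_cancel_left _ hd0]
      unfold muc
      rw [ArithmeticFunction.moebius_eq_zero_of_not_squarefree]
      · simp
      · intro hcs
        exact hdb (root_unique hsq hcs hb0.ne' (by omega) (hab.trans hc)).symm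
    · rfl

lemma inner {n d : ℕ} (hd : 1 ≤ d) (t : ℝ) : ∑ k ∈ Finset.Icc 1 n, (if d ^ 2 ∣ k then muc (k / d ^ 2) else 0) * nit t k =
    nit t (d ^ 2) * Sw muc t ((n / d ^ 2 : ℕ) : ℝ) := by
  classical
  have hd0 : 0 < d ^ 2 := by positivity
  unfold Sw
  rw [Nat.floor_natCast, Finset.mul_sum]
  have h1 : ∀ k ∈ Finset.Icc 1 n, (if d ^ 2 ∣ k then muc (k / d ^ 2) else 0) * nit t k =
      if d ^ 2 ∣ k then muc (k / d ^ 2) * nit t k else 0 := by
    intro k _
    split_ifs <;> simp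
  rw [Finset.sum_congr rfl h1, ← Finset.sum_filter]
  symm
  refine Finset.sum_bij (fun m _ => d ^ 2 * m) ?_ ?_ ?_ ?_
  · intro m hm
    rw [Finset.mem_Icc] at hm
    rw [Finset.mem_filter, Finset.mem_Icc]
    refine ⟨⟨?_, ?_⟩, Dvd.intro _ rfl⟩
    · exact Nat.mul_pos hd0 hm.1
    · have := (Nat.le_div_iff_mul_le hd0).mp hm.2
      rwa [mul_comm] at this
  · intro m _ m' _ h
    exact Nat.eq_of_mul_eq_mul_left hd0 h
  · intro k hk
    rw [Finset.mem_filter, Finset.mem_Icc] at hk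
    obtain ⟨⟨h2, h3⟩, m, hm⟩ := hk
    refine ⟨m, ?_, hm.symm⟩
    rw [Finset.mem_Icc]
    constructor
    · rcases Nat.eq_zero_or_pos m with h | h
      · rw [h, mul_zero] at hm
        omega
      · exact h
    · rw [Nat.le_div_iff_mul_le hd0, mul_comm, ← hm]
      exact h3
  · intro m _
    rw [Nat.mul_div_cancel_left _ hd0, nit_mul]
    ring

lemma sw_lac {n : ℕ} (t : ℝ) : Sw lac t n = ∑ d ∈ Finset.Icc 1 n, nit t (d ^ 2) * Sw muc t ((n / d ^ 2 : ℕ) : ℝ) := by
  have h1 : Sw lac t n = ∑ k ∈ Finset.Icc 1 n, ∑ d ∈ Finset.Icc 1 n, (if d ^ 2 ∣ k then muc (k / d ^ 2) else 0) * nit t k := by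
    unfold Sw
    rw [Nat.floor_natCast]
    refine Finset.sum_congr rfl fun k hk => ?_
    rw [Finset.mem_Icc] at hk
    rw [lac_sum hk.1 hk.2, Finset.sum_mul]
  rw [h1, Finset.sum_comm]
  refine Finset.sum_congr rfl fun d hd => ?_
  rw [Finset.mem_Icc] at hd
  exact inner hd.1 t

theorem lam_of_mu {t B : ℝ} {n : ℕ} (hB : 0 ≤ B) (h : ∀ m : ℕ, 1 ≤ m → m ≤ n → ‖Sw muc t m‖ ≤ B * Real.sqrt m) :
    ‖Sw lac t n‖ ≤ B * Real.sqrt n * (1 + Real.log n) := by
  rcases Nat.eq_zero_or_pos n with hn | hn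
  · rw [hn]
    unfold Sw
    simp
  rw [sw_lac]
  refine (norm_sum_le _ _).trans ?_
  have h1 : ∀ d ∈ Finset.Icc 1 n, ‖nit t (d ^ 2) * Sw muc t ((n / d ^ 2 : ℕ) : ℝ)‖ ≤ B * Real.sqrt n * (d : ℝ)⁻¹ := by
    intro d hd
    rw [Finset.mem_Icc] at hd
    have hd0 : 0 < d ^ 2 := by have := hd.1; positivity
    have hdr : (0 : ℝ) < d := by exact_mod_cast hd.1
    rw [norm_mul, norm_nit hd0, one_mul]
    rcases Nat.eq_zero_or_pos (n / d ^ 2) with h0 | h0
    · rw [h0]
      have h2 : Sw muc t ((0 : ℕ) : ℝ) = 0 := by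
        unfold Sw
        simp
      rw [h2, norm_zero]
      positivity
    · refine (h (n / d ^ 2) h0 (Nat.div_le_self _ _)).trans ?_
      rw [mul_assoc]
      refine mul_le_mul_of_nonneg_left ?_ hB
      have h3 : Real.sqrt n * (d : ℝ)⁻¹ = Real.sqrt (n / (d : ℝ) ^ 2) := by
        rw [Real.sqrt_div (Nat.cast_nonneg n), Real.sqrt_sq hdr.le, div_eq_mul_inv]
      rw [h3]
      refine Real.sqrt_le_sqrt ?_
      have := Nat.cast_div_le (m := n) (n := d ^ 2) (α := ℝ)
      push_cast at this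
      exact this
  refine (Finset.sum_le_sum h1).trans ?_
  rw [← Finset.mul_sum]
  refine mul_le_mul_of_nonneg_left ?_ (by positivity)
  have h2 := harmonic_le_one_add_log n
  rw [harmonic_eq_sum_Icc] at h2
  push_cast at h2
  exact h2

end Pool.Agent.Helper24.LV
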